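import Mathlib

set_option autoImplicit false
set_option maxSynthPendingDepth 3

namespace Pool.Agent.Results.MP_1a49c3_al.Seventh

open Polynomial

variable {K : Type} [Field K]

/-- Zariski closure in the affine space of `3 × 3` matrices. -/
def zcl (S : Set (Matrix (Fin 3) (Fin 3) K)) : Set (Matrix (Fin 3) (Fin 3) K) :=
  {M | ∀ f : MvPolynomial (Fin 3 × Fin 3) K,
    (∀ A ∈ S, MvPolynomial.eval (fun e => A e.1 e.2) f = 0) →
      MvPolynomial.eval (fun e => M e.1 e.2) f = 0}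

/-- `p` is a linear combination of monomials of degree `d`. -/
def IsHomogeneous {m : ℕ} (d : ℕ) (p : FreeAlgebra K (Fin m)) : Prop :=
  p ∈ Submodule.span K {w | ∃ l : List (Fin m), l.length = d ∧ w = (l.map (FreeAlgebra.ι K)).prod}

/-- The image of `p` on `3 × 3` matrices. -/
def image {m : ℕ} (p : FreeAlgebra K (Fin m)) : Set (Matrix (Fin 3) (Fin 3) K) :=
  Set.range fun A : Fin m → Matrix (Fin 3) (Fin 3) K => FreeAlgebra.lift K A p

/-- The `3`-scalar matrices. -/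
def V3 (K : Type) [Field K] : Set (Matrix (Fin 3) (Fin 3) K) :=
  {A | ∃ c : K, A.charpoly = X ^ 3 - C c}

/-- second elementary symmetric function of the eigenvalues -/
def e2 {R : Type} [CommRing R] (A : Matrix (Fin 3) (Fin 3) R) : R :=
  A 0 0 * A 1 1 - A 0 1 * A 1 0 + A 0 0 * A 2 2 - A 0 2 * A 2 0 + A 1 1 * A 2 2 - A 1 2 * A 2 1

lemma V3_eq {A : Matrix (Fin 3) (Fin 3) K} (h : A ∈ V3 K) : A.trace = 0 ∧ e2 A = 0 := by
  obtain ⟨c, hc⟩ := h
  have h1 : A.trace = 0 := by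
    rw [Matrix.trace_eq_neg_charpoly_coeff, hc]
    simp [coeff_X_pow]
  have h2 := A.eval_charpoly 0
  have h3 := A.eval_charpoly 1
  rw [hc, Matrix.det_fin_three] at h2 h3
  rw [Matrix.trace_fin_three] at h1 ⊢
  simp at h2 h3
  exact ⟨h1, by unfold e2; linear_combination h2 - h3 + h1⟩

/-- generic matrix -/
noncomputable def G : Matrix (Fin 3) (Fin 3) (MvPolynomial (Fin 3 × Fin 3) K) :=
  fun i j => MvPolynomial.X (i, j)

lemma core {S : Set (Matrix (Fin 3) (Fin 3) K)} (f : MvPolynomial (Fin 3 × Fin 3) K)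
    (hf : ∀ A ∈ S, MvPolynomial.eval (fun e => A e.1 e.2) f = 0)
    (M : Matrix (Fin 3) (Fin 3) K) (hM : MvPolynomial.eval (fun e => M e.1 e.2) f ≠ 0)
    (W : Matrix (Fin 3) (Fin 3) K) (hW : W ∈ S) (h1 : W.trace ≠ 0) (h2 : W.trace ^ 2 ≠ 3 * e2 W) :
    zcl S ≠ {0} ∧ zcl S ≠ {A | ∃ c : K, A = c • 1} ∧ zcl S ≠ V3 K ∧ zcl S ≠ {A | A.trace = 0} ∧
      zcl S ≠ zcl {B | ∃ A ∈ V3 K, ∃ c : K, B = A + c • 1} ∧ zcl S ≠ Set.univ := by
  have hW' : W ∈ zcl S := fun g hg => hg W hW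
  refine ⟨fun h => ?_, fun h => ?_, fun h => ?_, fun h => ?_, fun h => ?_, fun h => ?_⟩
  · rw [h] at hW'
    exact h1 (by rw [hW']; simp)
  · rw [h] at hW'
    obtain ⟨c, rfl⟩ := hW'
    exact h2 (by simp [e2]; ring)
  · rw [h] at hW'
    exact h1 (V3_eq hW').1
  · rw [h] at hW'
    exact h1 hW'
  · rw [h] at hW'
    have := hW' (G.trace ^ 2 - 3 * e2 G) (by
      rintro _ ⟨A, hA, c, rfl⟩
      obtain ⟨a1, a2⟩ := V3_eq hA
      simp [e2, Matrix.trace_fin_three, G, Matrix.one_apply] at a1 a2 ⊢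
      linear_combination (A 0 0 + A 1 1 + A 2 2) * a1 - 3 * a2)
    apply h2
    simp [e2, Matrix.trace_fin_three, G] at this ⊢
    linear_combination this
  · exact hM ((h ▸ Set.mem_univ M : M ∈ zcl S) f hf)

/-- the commutator of the two variables -/
noncomputable def cm : FreeAlgebra K (Fin 2) :=
  FreeAlgebra.ι K 0 * FreeAlgebra.ι K 1 - FreeAlgebra.ι K 1 * FreeAlgebra.ι K 0

lemma hom_mul {m a b : ℕ} {p q : FreeAlgebra K (Fin m)} (hp : IsHomogeneous a p)
    (hq : IsHomogeneous b q) : IsHomogeneous (a + b) (p * q) := by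
  have := Submodule.mul_mem_mul hp hq
  rw [Submodule.span_mul_span] at this
  refine Submodule.span_mono ?_ this
  rintro _ ⟨_, ⟨l, rfl, rfl⟩, _, ⟨l', rfl, rfl⟩, rfl⟩
  exact ⟨l ++ l', by simp, by simp⟩

lemma hom_cm : IsHomogeneous 2 (cm (K := K)) :=
  sub_mem (Submodule.subset_span ⟨[0, 1], rfl, by simp⟩)
    (Submodule.subset_span ⟨[1, 0], rfl, by simp⟩)

lemma lift_cm (A : Fin 2 → Matrix (Fin 3) (Fin 3) K) :
    FreeAlgebra.lift K A cm = A 0 * A 1 - A 1 * A 0 := by simp [cm]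

lemma tr_cm (A : Fin 2 → Matrix (Fin 3) (Fin 3) K) : (FreeAlgebra.lift K A cm).trace = 0 := by
  rw [lift_cm, Matrix.trace_sub, Matrix.trace_mul_comm, sub_self]

lemma diag_cm (a b : K) :
    FreeAlgebra.lift K ![!![0, a, 0; 0, 0, b; 0, 0, 0], !![0, 0, 0; 1, 0, 0; 0, 1, 0]] cm =
      Matrix.diagonal ![a, b - a, -b] := by
  rw [lift_cm]
  ext i j
  fin_cases i <;> fin_cases j <;> simp

lemma sq_van (A : Matrix (Fin 3) (Fin 3) K) (hA : A ∈ image (cm * cm : FreeAlgebra K (Fin 2))) :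
    MvPolynomial.eval (fun e => A e.1 e.2) (G.trace ^ 2 - 4 * e2 G) = 0 := by
  obtain ⟨A, rfl⟩ := hA
  have h := tr_cm A
  simp only [map_mul]
  generalize FreeAlgebra.lift K A cm = B at h ⊢
  rw [Matrix.trace_fin_three] at h
  have h' : B 2 2 = -B 0 0 - B 1 1 := by linear_combination h
  simp [Matrix.trace_fin_three, e2, G, Matrix.mul_apply, Fin.sum_univ_three, h']
  ring

lemma cube_van (A : Matrix (Fin 3) (Fin 3) K)
    (hA : A ∈ image (cm * cm * cm : FreeAlgebra K (Fin 2))) :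
    MvPolynomial.eval (fun e => A e.1 e.2) (G.trace ^ 3 - 27 * G.det) = 0 := by
  obtain ⟨A, rfl⟩ := hA
  have h := tr_cm A
  simp only [map_mul]
  generalize FreeAlgebra.lift K A cm = B at h ⊢
  have h3 : (B * B * B).trace = 3 * B.det := by
    rw [Matrix.trace_fin_three] at h
    simp only [Matrix.trace_fin_three, Matrix.det_fin_three, Matrix.mul_apply,
      Fin.sum_univ_three]
    linear_combination ((B 0 0 + B 1 1 + B 2 2) ^ 2 - 3 * (B 0 0 * B 1 1 - B 0 1 * B 1 0 +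
      B 0 0 * B 2 2 - B 0 2 * B 2 0 + B 1 1 * B 2 2 - B 1 2 * B 2 1)) * h
  have h4 : (B * B * B).det = B.det ^ 3 := by simp only [Matrix.det_mul]; ring
  generalize B * B * B = D at h3 h4 ⊢
  generalize B.det = u at h3 h4
  rw [Matrix.trace_fin_three] at h3
  rw [Matrix.det_fin_three] at h4
  simp [Matrix.trace_fin_three, Matrix.det_fin_three, G]
  rw [h3, h4]; ring

lemma mem_sq (a b : K) : Matrix.diagonal ![a * a, (b - a) * (b - a), b * b] ∈
    image (cm * cm : FreeAlgebra K (Fin 2)) := by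
  refine ⟨![!![0, a, 0; 0, 0, b; 0, 0, 0], !![0, 0, 0; 1, 0, 0; 0, 1, 0]], ?_⟩
  beta_reduce
  rw [map_mul, diag_cm, Matrix.diagonal_mul_diagonal]
  congr 1
  ext i
  fin_cases i <;> simp

lemma mem_cube (a b : K) : Matrix.diagonal ![a ^ 3, (b - a) ^ 3, -b ^ 3] ∈
    image (cm * cm * cm : FreeAlgebra K (Fin 2)) := by
  refine ⟨![!![0, a, 0; 0, 0, b; 0, 0, 0], !![0, 0, 0; 1, 0, 0; 0, 1, 0]], ?_⟩
  beta_reduce
  rw [map_mul, map_mul, diag_cm, Matrix.diagonal_mul_diagonal, Matrix.diagonal_mul_diagonal]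
  congr 1
  ext i
  fin_cases i <;> simp <;> ring

theorem result (K : Type) [Field K] [IsAlgClosed K] :
    ∃ (m d : ℕ) (p : FreeAlgebra K (Fin m)), 1 ≤ d ∧ IsHomogeneous d p ∧
      zcl (image p) ≠ {0} ∧
      zcl (image p) ≠ {A | ∃ c : K, A = c • 1} ∧
      zcl (image p) ≠ V3 K ∧
      zcl (image p) ≠ {A | A.trace = 0} ∧
      zcl (image p) ≠ zcl {B | ∃ A ∈ V3 K, ∃ c : K, B = A + c • 1} ∧
      zcl (image p) ≠ Set.univ := by
  by_cases h2 : (2 : K) = 0
  · obtain ⟨t, ht⟩ := IsAlgClosed.exists_root (X ^ 3 + X + 1 : K[X]) (by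
      rw [show (X ^ 3 + X + 1 : K[X]).degree = 3 by compute_degree!]; norm_num)
    have ht' : t ^ 3 + t + 1 = 0 := by simpa using ht
    refine ⟨2, 2 + 2 + 2, cm * cm * cm, by norm_num, hom_mul (hom_mul hom_cm hom_cm) hom_cm,
      core _ cube_van (Matrix.diagonal ![1, 0, 0]) ?_ _ (mem_cube 1 (t + 1)) ?_ ?_⟩
    · simp [Matrix.trace_fin_three, Matrix.det_fin_three, G]
    · simp [Fin.sum_univ_three]
      intro h
      have h1 : t ^ 2 + t = 0 := by linear_combination -h - (t ^ 2 + t) * h2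
      exact one_ne_zero (α := K) (by linear_combination ht' - (t - 1) * h1 - t * h2)
    · simp [Fin.sum_univ_three, e2]
      intro h
      have h1 : (t ^ 2 + t + 1) ^ 3 = 0 := by linear_combination h - (t ^ 2 + t + 1) ^ 3 * h2
      have hq := pow_eq_zero_iff (by norm_num) |>.mp h1
      exact one_ne_zero (α := K)
        (by linear_combination hq - (t + 1) * (ht' - (t - 1) * hq - h2))
  · refine ⟨2, 2 + 2, cm * cm, by norm_num, hom_mul hom_cm hom_cm,
      core _ sq_van (Matrix.diagonal ![1, 0, 0]) ?_ _ (mem_sq 1 0) ?_ ?_⟩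
    · simp [Matrix.trace_fin_three, e2, G]
    · simp [Fin.sum_univ_three]
      exact fun h => h2 (by linear_combination h)
    · simp [Fin.sum_univ_three, e2]
      intro h
      exact one_ne_zero (α := K) (by linear_combination h)

end Pool.Agent.Results.MP_1a49c3_al.Seventh
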